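import Pool.Agent.H563R3.FPPDefs

set_option autoImplicit false
open Filter Topology
open scoped ENNReal NNReal

namespace Pool.Agent.Y982.RP

open Pool.Agent.H563R3.FPP

/-- The nearest neighbour graph of `ℤ ^ D`. -/
def lat (D : ℕ) : SimpleGraph (Fin D → ℤ) where
  Adj u v := ∃ i, v = u + Pi.single i 1 ∨ u = v + Pi.single i 1
  symm := ⟨fun _ _ ⟨i, h⟩ => ⟨i, h.symm⟩⟩
  loopless := ⟨by
    rintro u ⟨i, h | h⟩
    · have := congrFun h i
      simp at this
    · have := congrFun h i
      simp at this⟩

variable {D : ℕ}

theorem adj_add (u : Fin D → ℤ) (i : Fin D) : (lat D).Adj u (u + Pi.single i 1) :=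
  ⟨i, Or.inl rfl⟩

theorem reach_single (u : Fin D → ℤ) (i : Fin D) (z : ℤ) :
    (lat D).Reachable u (u + Pi.single i z) := by
  induction z using Int.induction_on with
  | zero => rw [Pi.single_zero, add_zero]
  | succ n ih =>
    refine ih.trans (SimpleGraph.Adj.reachable ⟨i, Or.inl ?_⟩)
    rw [add_assoc, ← Pi.single_add]
  | pred n ih =>
    refine ih.trans (SimpleGraph.Adj.reachable ⟨i, Or.inr ?_⟩)
    rw [add_assoc, ← Pi.single_add]
    congr 2
    ring

theorem lat_connected : (lat D).Connected := by
  rw [SimpleGraph.connected_iff_exists_forall_reachable]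
  refine ⟨0, fun v => ?_⟩
  have key : ∀ s : Finset (Fin D), (lat D).Reachable 0 (∑ i ∈ s, Pi.single i (v i)) := by
    classical
    intro s
    induction s using Finset.induction_on with
    | empty => simp
    | insert i s hi ih =>
      rw [Finset.sum_insert hi, add_comm]
      exact ih.trans (reach_single _ i (v i))
  have h1 := key Finset.univ
  rwa [Finset.univ_sum_single] at h1

theorem lat_degree (u : Fin D → ℤ) : ((lat D).neighborSet u).encard ≤ ((2 * D : ℕ) : ℕ∞) := by
  classical
  have hsub : (lat D).neighborSet u ⊆ (((Finset.univ.image (fun i : Fin D => u + Pi.single i 1)) ∪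
      (Finset.univ.image (fun i : Fin D => u - Pi.single i 1)) : Finset (Fin D → ℤ)) :
        Set (Fin D → ℤ)) := by
    rintro v ⟨i, rfl | h⟩
    · simp
    · simp only [Finset.coe_union, Finset.coe_image, Finset.coe_univ, Set.image_univ,
        Set.mem_union, Set.mem_range]
      right
      exact ⟨i, by rw [h]; simp⟩
  refine (Set.encard_le_encard hsub).trans ?_
  rw [Set.encard_coe_eq_coe_finsetCard]
  have h1 : ((Finset.univ.image (fun i : Fin D => u + Pi.single i 1)) ∪
      (Finset.univ.image (fun i : Fin D => u - Pi.single i 1)) : Finset (Fin D → ℤ)).card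
      ≤ 2 * D := by
    refine (Finset.card_union_le _ _).trans ?_
    have h2 := Finset.card_image_le (s := (Finset.univ : Finset (Fin D)))
      (f := fun i : Fin D => u + Pi.single i 1)
    have h3 := Finset.card_image_le (s := (Finset.univ : Finset (Fin D)))
      (f := fun i : Fin D => u - Pi.single i 1)
    rw [Finset.card_univ, Fintype.card_fin] at h2 h3
    omega
  exact_mod_cast h1

theorem lat_walk (u v : Fin D → ℤ) (q : (lat D).Walk u v) (j : Fin D) :
    |v j - u j| ≤ q.length := by
  induction q with
  | nil => simp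
  | @cons u v w h q ih =>
    rw [SimpleGraph.Walk.length_cons]
    have hone : |v j - u j| ≤ 1 := by
      obtain ⟨i, rfl | rfl⟩ := h
      · by_cases hij : j = i
        · subst hij; simp
        · simp [Pi.single_eq_of_ne hij]
      · by_cases hij : j = i
        · subst hij; simp
        · simp [Pi.single_eq_of_ne hij]
    rw [abs_le] at *
    push_cast
    omega

theorem lat_ball (u : Fin D → ℤ) (n : ℕ) :
    ({w | (lat D).dist u w ≤ n} : Set (Fin D → ℤ)).encard ≤ (((2 * n + 1) ^ D : ℕ) : ℕ∞) := by
  classical
  have hsub : ({w | (lat D).dist u w ≤ n} : Set (Fin D → ℤ)) ⊆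
      ((Fintype.piFinset (fun i => Finset.Icc (u i - n) (u i + n)) : Finset (Fin D → ℤ)) :
        Set (Fin D → ℤ)) := by
    intro w hw
    obtain ⟨q, hq⟩ := lat_connected.exists_walk_length_eq_dist u w
    have hw' : (lat D).dist u w ≤ n := hw
    rw [Finset.mem_coe, Fintype.mem_piFinset]
    intro i
    have h := lat_walk u w q i
    rw [hq, abs_le] at h
    rw [Finset.mem_Icc]
    omega
  refine (Set.encard_le_encard hsub).trans ?_
  rw [Set.encard_coe_eq_coe_finsetCard, Fintype.card_piFinset]
  simp only [Int.card_Icc]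
  have h1 : ∀ i, (u i + n + 1 - (u i - n)).toNat = 2 * n + 1 := by intro i; omega
  simp only [h1, Finset.prod_const, Finset.card_univ, Fintype.card_fin]
  exact le_refl _

/-! ### Isoperimetry by random translations -/

section iso

variable (S : Finset (Fin D → ℤ))

theorem bdry_fin : (bdry (lat D) S).Finite := S.finite_toSet.subset (fun v hv => hv.1)

open Classical in
/-- Points of `S` moved out of `S` by the translation by `g`. -/
noncomputable def out (g : Fin D → ℤ) : Finset (Fin D → ℤ) := S.filter (fun x => x + g ∉ S)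

theorem out_zero : out S 0 = ∅ := by
  unfold out
  rw [Finset.filter_eq_empty_iff]
  intro x hx
  simpa using hx

theorem out_step (g : Fin D → ℤ) (i : Fin D) :
    (out S (g + Pi.single i 1)).card ≤ (out S g).card + (bdry (lat D) S).ncard := by
  classical
  have hfin := bdry_fin S
  have hsub : out S (g + Pi.single i 1) ⊆ out S g ∪
      (hfin.toFinset).image (fun y => y - g) := by
    intro x hx
    unfold out at hx ⊢
    rw [Finset.mem_filter] at hx
    rw [Finset.mem_union, Finset.mem_filter, Finset.mem_image]
    by_cases h : x + g ∈ S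
    · right
      refine ⟨x + g, ?_, by simp⟩
      rw [Set.Finite.mem_toFinset]
      refine ⟨h, x + g + Pi.single i 1, ?_, adj_add _ i⟩
      rw [add_assoc]; exact hx.2
    · left; exact ⟨hx.1, h⟩
  refine (Finset.card_le_card hsub).trans ((Finset.card_union_le _ _).trans ?_)
  rw [Set.ncard_eq_toFinset_card _ hfin]
  exact Nat.add_le_add_left Finset.card_image_le _

theorem out_le (n : ℕ) : ∀ g : Fin D → ℕ, ∑ i, g i = n →
    (out S (fun i => (g i : ℤ))).card ≤ n * (bdry (lat D) S).ncard := by
  induction n with
  | zero =>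
    intro g hg
    have h1 : (fun i => (g i : ℤ)) = 0 := by
      funext i
      have := (Finset.sum_eq_zero_iff.1 hg) i (Finset.mem_univ i)
      simp [this]
    rw [h1, out_zero]
    simp
  | succ n ih =>
    intro g hg
    obtain ⟨i, hi⟩ : ∃ i, 0 < g i := by
      by_contra hcon
      push Not at hcon
      have : ∑ i, g i = 0 := Finset.sum_eq_zero (fun i _ => Nat.le_zero.1 (hcon i))
      omega
    let g' : Fin D → ℕ := Function.update g i (g i - 1)
    have hg' : ∑ j, g' j = n := by
      have h1 := Finset.sum_update_of_mem (Finset.mem_univ i) g (g i - 1)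
      have h2 := Finset.add_sum_erase Finset.univ g (Finset.mem_univ i)
      have h3 : Finset.univ \ {i} = Finset.univ.erase i := by
        rw [Finset.sdiff_singleton_eq_erase]
      rw [h3] at h1
      have h4 : ∑ j, g' j = g i - 1 + ∑ x ∈ Finset.univ.erase i, g x := h1
      omega
    have e1 : (fun j => (g j : ℤ)) = (fun j => (g' j : ℤ)) + Pi.single i 1 := by
      funext j
      by_cases hij : j = i
      · subst hij
        simp only [g', Pi.add_apply, Function.update_self, Pi.single_eq_same]
        omega
      · simp only [g', Pi.add_apply, Function.update_of_ne hij, Pi.single_eq_of_ne hij, add_zero]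
    rw [e1]
    have h5 := out_step S (fun j => (g' j : ℤ)) i
    have h6 := ih g' hg'
    rw [Nat.succ_mul]
    omega

/-- The counting inequality. -/
theorem count (r : ℕ) (hr : 2 * S.card ≤ (r + 1) ^ D) :
    S.card ≤ 2 * (D * r) * (bdry (lat D) S).ncard := by
  classical
  let B : Finset (Fin D → ℕ) := Fintype.piFinset (fun _ => Finset.range (r + 1))
  have hB : B.card = (r + 1) ^ D := by
    simp only [B, Fintype.card_piFinset, Finset.card_range, Finset.prod_const, Finset.card_univ,
      Fintype.card_fin]
  -- double counting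
  have h1 : ∑ g ∈ B, (out S (fun i => (g i : ℤ))).card
      = ∑ x ∈ S, (B.filter (fun g => x + (fun i => (g i : ℤ)) ∉ S)).card := by
    unfold out
    simp_rw [Finset.card_filter]
    exact Finset.sum_comm
  have h2 : ∀ x ∈ S, B.card ≤ (B.filter (fun g => x + (fun i => (g i : ℤ)) ∉ S)).card + S.card := by
    intro x _
    have h3 := Finset.card_filter_add_card_filter_not (s := B)
      (p := fun g => x + (fun i => (g i : ℤ)) ∈ S)
    have h4 : (B.filter (fun g => x + (fun i => (g i : ℤ)) ∈ S)).card ≤ S.card := by
      apply Finset.card_le_card_of_injOn (fun g => x + (fun i => (g i : ℤ)))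
      · intro g hg
        rw [Finset.mem_coe, Finset.mem_filter] at hg
        exact hg.2
      · intro g _ g' _ e
        have e' : x + (fun i => (g i : ℤ)) = x + (fun i => (g' i : ℤ)) := e
        have e1 := add_left_cancel e'
        funext i
        exact_mod_cast congrFun e1 i
    omega
  have h5 : ∀ g ∈ B, (out S (fun i => (g i : ℤ))).card ≤ (D * r) * (bdry (lat D) S).ncard := by
    intro g hg
    refine (out_le S _ g rfl).trans (Nat.mul_le_mul_right _ ?_)
    have h6 : ∑ i, g i ≤ ∑ _i : Fin D, r := by
      apply Finset.sum_le_sum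
      intro i _
      have := Fintype.mem_piFinset.1 hg i
      rw [Finset.mem_range] at this
      omega
    simpa using h6
  have h7 : ∑ g ∈ B, (out S (fun i => (g i : ℤ))).card ≤ B.card * ((D * r) * (bdry (lat D) S).ncard) := by
    have := Finset.sum_le_card_nsmul _ _ _ h5
    rwa [smul_eq_mul] at this
  have h8 : S.card * B.card ≤ ∑ x ∈ S, ((B.filter (fun g => x + (fun i => (g i : ℤ)) ∉ S)).card
      + S.card) := by
    have := Finset.card_nsmul_le_sum S _ _ h2
    rwa [smul_eq_mul] at this
  rw [Finset.sum_add_distrib, Finset.sum_const, smul_eq_mul, ← h1] at h8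
  have hBpos : 0 < B.card := by rw [hB]; positivity
  have h9 : 2 * S.card ≤ B.card := by rw [hB]; exact hr
  have h10 : S.card * B.card ≤ B.card * ((D * r) * (bdry (lat D) S).ncard) + S.card * S.card := by
    omega
  have h11 : 2 * (S.card * S.card) ≤ S.card * B.card := by
    calc 2 * (S.card * S.card) = S.card * (2 * S.card) := by ring
      _ ≤ S.card * B.card := Nat.mul_le_mul_left _ h9
  have h12 : B.card * S.card ≤ B.card * (2 * (D * r) * (bdry (lat D) S).ncard) := by
    calc B.card * S.card = S.card * B.card := by ring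
      _ ≤ 2 * (B.card * ((D * r) * (bdry (lat D) S).ncard)) := by omega
      _ = _ := by ring
  exact Nat.le_of_mul_le_mul_left h12 hBpos

end iso

theorem lat_iso (hD : 2 ≤ D) : Isoperimetric (lat D) D := by
  have hD0 : (0 : ℝ) < D := by exact_mod_cast (by omega : 0 < D)
  have hD2 : (2 : ℝ) ≤ D := by exact_mod_cast hD
  refine ⟨1 / (8 * D), by positivity, fun S => ?_⟩
  rcases Nat.eq_zero_or_pos S.card with h0 | h0
  · rw [h0]
    have ha : ((D : ℝ) - 1) / D ≠ 0 := (div_pos (by linarith) hD0).ne'
    rw [Nat.cast_zero, Real.zero_rpow ha, mul_zero]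
    positivity
  · have hs : (1 : ℝ) ≤ S.card := by exact_mod_cast h0
    set s : ℝ := (S.card : ℝ) with hsdef
    set y : ℝ := (2 * s) ^ (1 / (D : ℝ)) with hy
    have hy1 : 1 ≤ y := by
      rw [hy]; exact Real.one_le_rpow (by linarith) (by positivity)
    have hyD : y ^ D = 2 * s := by
      rw [hy, ← Real.rpow_natCast, ← Real.rpow_mul (by linarith)]
      rw [one_div, inv_mul_cancel₀ hD0.ne', Real.rpow_one]
    set r : ℕ := ⌈y⌉₊ with hr
    have hr1 : y ≤ r := Nat.le_ceil y
    have hr2 : (r : ℝ) < y + 1 := Nat.ceil_lt_add_one (by linarith)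
    have hcond : 2 * S.card ≤ (r + 1) ^ D := by
      have h1 : (2 * s) ≤ ((r : ℝ) + 1) ^ D := by
        rw [← hyD]
        exact pow_le_pow_left₀ (by linarith) (by linarith) D
      rw [hsdef] at h1
      exact_mod_cast h1
    have hcount := count S r hcond
    have hcount' : s ≤ 2 * (D * r) * ((bdry (lat D) S).ncard : ℝ) := by
      rw [hsdef]; exact_mod_cast hcount
    -- y ≤ 2 s^(1/D)
    have hy2 : y ≤ 2 * s ^ (1 / (D : ℝ)) := by
      rw [hy, Real.mul_rpow (by norm_num) (by linarith)]
      apply mul_le_mul_of_nonneg_right _ (by positivity)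
      calc (2 : ℝ) ^ (1 / (D : ℝ)) ≤ (2 : ℝ) ^ (1 : ℝ) := by
            apply Real.rpow_le_rpow_of_exponent_le (by norm_num)
            rw [div_le_one hD0]; linarith
        _ = 2 := Real.rpow_one 2
    have hr3 : (r : ℝ) ≤ 4 * s ^ (1 / (D : ℝ)) := by
      have : (r : ℝ) ≤ 2 * y := by linarith
      linarith
    set b : ℝ := ((bdry (lat D) S).ncard : ℝ) with hb
    have hb0 : 0 ≤ b := by rw [hb]; positivity
    have hsp : 0 < s ^ (1 / (D : ℝ)) := Real.rpow_pos_of_pos (by linarith) _
    have h3 : s ≤ 8 * D * s ^ (1 / (D : ℝ)) * b := by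
      refine hcount'.trans ?_
      calc 2 * (D * r) * b ≤ 2 * (D * (4 * s ^ (1 / (D : ℝ)))) * b := by
            gcongr
        _ = _ := by ring
    have h4 : s ^ (((D : ℝ) - 1) / D) * s ^ (1 / (D : ℝ)) = s := by
      rw [← Real.rpow_add (by linarith), ← add_div, sub_add_cancel, div_self hD0.ne',
        Real.rpow_one]
    have h5 : s ^ (((D : ℝ) - 1) / D) ≤ 8 * D * b := by
      by_contra hcon
      push Not at hcon
      have h6 := mul_lt_mul_of_pos_right hcon hsp
      rw [h4] at h6
      have h7 : 8 * D * b * s ^ (1 / (D : ℝ)) = 8 * D * s ^ (1 / (D : ℝ)) * b := by ring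
      linarith
    rw [one_div_mul_eq_div, div_le_iff₀ (by positivity)]
    linarith

end Pool.Agent.Y982.RP
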