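import Pool.Agent.H563R3.FPPProb

set_option autoImplicit false
open MeasureTheory ProbabilityTheory Filter Topology
open scoped ENNReal NNReal

namespace Pool.Agent.Y982.RP

open Pool.Agent.H563R3.FPP

variable {U : Type} (H : SimpleGraph U) (p : U)

/-- The row of copies of `H`: the vertex set is `ℤ × U`, the layer `{x} × U` carries the edges of
`H`, and the points `(x, p)` and `(x + 1, p)` are joined; there are no other edges. -/
def row : SimpleGraph (ℤ × U) where
  Adj v w := (v.1 = w.1 ∧ H.Adj v.2 w.2) ∨ ((v.1 = w.1 + 1 ∨ w.1 = v.1 + 1) ∧ v.2 = p ∧ w.2 = p)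
  symm := ⟨by
    rintro ⟨a, b⟩ ⟨a', b'⟩ h
    rcases h with ⟨h1, h2⟩ | ⟨h1, h2, h3⟩
    · exact Or.inl ⟨h1.symm, h2.symm⟩
    · exact Or.inr ⟨h1.symm, h3, h2⟩⟩
  loopless := ⟨by
    rintro ⟨a, b⟩ h
    rcases h with ⟨h1, h2⟩ | ⟨h1, h2, h3⟩
    · exact H.loopless.irrefl _ h2
    · simp only at h1
      omega⟩

theorem adj_iff (x y : ℤ) (u v : U) : (row H p).Adj (x, u) (y, v) ↔
    (x = y ∧ H.Adj u v) ∨ ((x = y + 1 ∨ y = x + 1) ∧ u = p ∧ v = p) := Iff.rfl

theorem adj_layer (x : ℤ) (u v : U) : (row H p).Adj (x, u) (x, v) ↔ H.Adj u v := by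
  rw [adj_iff]
  constructor
  · rintro (⟨_, h⟩ | ⟨h, _⟩)
    · exact h
    · omega
  · intro h; exact Or.inl ⟨rfl, h⟩

section deg

variable {H} {Δ : ℕ}

theorem nb_fin (hΔ : ∀ u, (H.neighborSet u).encard ≤ Δ) (u : U) : (H.neighborSet u).Finite :=
  Set.finite_of_encard_le_coe (hΔ u)

open Classical in
/-- candidates for neighbours -/
noncomputable def nbs (hΔ : ∀ u, (H.neighborSet u).encard ≤ Δ) (v : ℤ × U) : Finset (ℤ × U) :=
  ((nb_fin hΔ v.2).toFinset.image (fun u => (v.1, u))) ∪ {(v.1 + 1, v.2), (v.1 - 1, v.2)}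

theorem mem_nbs (hΔ : ∀ u, (H.neighborSet u).encard ≤ Δ) (u v : ℤ × U) (h : (row H p).Adj u v) :
    v ∈ nbs hΔ u := by
  classical
  obtain ⟨a, b⟩ := u
  obtain ⟨a', b'⟩ := v
  unfold nbs
  rw [Finset.mem_union, Finset.mem_image]
  rcases h with ⟨h1, h2⟩ | ⟨h1, h2, h3⟩
  · simp only at h1 h2
    subst h1
    left
    exact ⟨b', by simpa using h2, rfl⟩
  · simp only at h1 h2 h3
    subst h2
    subst h3
    right
    simp only [Finset.mem_insert, Finset.mem_singleton, Prod.mk.injEq, and_true]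
    omega

theorem card_nbs (hΔ : ∀ u, (H.neighborSet u).encard ≤ Δ) (v : ℤ × U) :
    (nbs hΔ v).card ≤ Δ + 2 := by
  classical
  unfold nbs
  refine (Finset.card_union_le _ _).trans ?_
  apply Nat.add_le_add
  · refine Finset.card_image_le.trans ?_
    have h1 := hΔ v.2
    rw [(nb_fin hΔ v.2).encard_eq_coe_toFinset_card] at h1
    exact_mod_cast h1
  · exact Finset.card_le_two

theorem loc_fin (hΔ : ∀ u, (H.neighborSet u).encard ≤ Δ) (v : ℤ × U) :
    ((row H p).neighborSet v).Finite :=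
  (nbs hΔ v).finite_toSet.subset (fun w hw => mem_nbs p hΔ v w hw)

theorem degree_le (hΔ : ∀ u, (H.neighborSet u).encard ≤ Δ) (v : ℤ × U) :
    ((row H p).neighborSet v).encard ≤ ((Δ + 2 : ℕ) : ℕ∞) := by
  calc ((row H p).neighborSet v).encard ≤ ((nbs hΔ v : Finset _) : Set (ℤ × U)).encard :=
        Set.encard_le_encard (fun w hw => mem_nbs p hΔ v w hw)
    _ = ((nbs hΔ v).card : ℕ∞) := Set.encard_coe_eq_coe_finsetCard _
    _ ≤ _ := by exact_mod_cast card_nbs hΔ v

end deg

/-- The layer over `x`. -/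
def layer (U : Type) (x : ℤ) : Set (ℤ × U) := {v | v.1 = x}

/-- The embedding of `H` as a layer. -/
def lay (x : ℤ) : H →g (row H p) where
  toFun u := (x, u)
  map_rel' := fun h => (adj_layer H p x _ _).2 h

/-- The embedding of `H` as an induced layer. -/
def lay' (x : ℤ) : H →g ((row H p).induce (layer U x)) where
  toFun u := ⟨(x, u), rfl⟩
  map_rel' := fun h => (adj_layer H p x _ _).2 h

variable {H}

theorem layer_connected (hc : H.Connected) (x : ℤ) :
    ((row H p).induce (layer U x)).Connected := by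
  rw [SimpleGraph.connected_iff_exists_forall_reachable]
  refine ⟨⟨(x, p), rfl⟩, ?_⟩
  rintro ⟨⟨a, u⟩, h⟩
  have h' : a = x := h
  subst h'
  exact (hc.preconnected p u).map (lay' H p a)

theorem layer_infinite [Infinite U] (x : ℤ) : (layer U x).Infinite := by
  have hinj : Function.Injective (fun u : U => ((x, u) : ℤ × U)) := by
    intro a b h
    simpa using h
  refine (Set.infinite_range_of_injective hinj).mono ?_
  rintro _ ⟨n, rfl⟩
  rfl

theorem row_connected (hc : H.Connected) : (row H p).Connected := by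
  rw [SimpleGraph.connected_iff_exists_forall_reachable]
  refine ⟨(0, p), ?_⟩
  rintro ⟨x, u⟩
  have hx : ∀ x : ℤ, (row H p).Reachable (0, p) (x, p) := by
    intro x
    induction x using Int.induction_on with
    | zero => exact SimpleGraph.Reachable.refl _
    | succ n ih =>
      refine ih.trans (SimpleGraph.Adj.reachable ?_)
      rw [adj_iff]
      exact Or.inr ⟨by omega, rfl, rfl⟩
    | pred n ih =>
      refine ih.trans (SimpleGraph.Adj.reachable ?_)
      rw [adj_iff]
      exact Or.inr ⟨by omega, rfl, rfl⟩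
  exact (hx x).trans ((hc.preconnected p u).map (lay H p x))

theorem walk_bound (hc : H.Connected) (u v : ℤ × U) (q : (row H p).Walk u v) :
    |v.1 - u.1| ≤ q.length ∧ H.dist u.2 v.2 ≤ q.length := by
  induction q with
  | nil => simp
  | @cons u v w h q ih =>
    obtain ⟨a, b⟩ := u
    obtain ⟨a', b'⟩ := v
    obtain ⟨a'', b''⟩ := w
    rw [SimpleGraph.Walk.length_cons]
    have htri := hc.dist_triangle (u := b) (v := b') (w := b'')
    have hone : H.dist b b' ≤ 1 := by
      rcases h with ⟨_, h2⟩ | ⟨_, h2, h3⟩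
      · exact (SimpleGraph.dist_eq_one_iff_adj.2 h2).le
      · simp only at h2 h3
        rw [h2, h3, SimpleGraph.dist_self]
        exact Nat.zero_le _
    have hv : |a' - a| ≤ 1 := by
      rcases h with ⟨h1, _⟩ | ⟨h1, _⟩
      · simp only at h1
        rw [h1]; simp
      · simp only at h1
        rw [abs_le]
        omega
    simp only [abs_le] at *
    push_cast
    refine ⟨by omega, by omega⟩

theorem dist_layer (hc : H.Connected) (x : ℤ) (u v : U) :
    (row H p).dist (x, u) (x, v) = H.dist u v := by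
  apply le_antisymm
  · obtain ⟨q, hq⟩ := hc.exists_walk_length_eq_dist u v
    rw [← hq, ← SimpleGraph.Walk.length_map (lay H p x) q]
    exact SimpleGraph.dist_le (q.map (lay H p x))
  · obtain ⟨q, hq⟩ := (row_connected p hc).exists_walk_length_eq_dist (x, u) (x, v)
    rw [← hq]
    exact (walk_bound p hc _ _ q).2

theorem ball_encard (hc : H.Connected) (n M : ℕ)
    (hM : ∀ u, ({w | H.dist u w ≤ n} : Set U).encard ≤ (M : ℕ∞)) (v : ℤ × U) :
    ({w | (row H p).dist v w ≤ n} : Set (ℤ × U)).encard ≤ (((2 * n + 1) * M : ℕ) : ℕ∞) := by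
  classical
  have hfin : ({w | H.dist v.2 w ≤ n} : Set U).Finite := Set.finite_of_encard_le_coe (hM v.2)
  have hsub : ({w | (row H p).dist v w ≤ n} : Set (ℤ × U)) ⊆
      ((Finset.Icc (v.1 - n) (v.1 + n) ×ˢ hfin.toFinset : Finset (ℤ × U)) : Set (ℤ × U)) := by
    intro w hw
    obtain ⟨q, hq⟩ := (row_connected p hc).exists_walk_length_eq_dist v w
    have h := walk_bound p hc v w q
    rw [hq] at h
    have hw' : (row H p).dist v w ≤ n := hw
    simp only [Finset.coe_product, Finset.coe_Icc, Set.mem_prod, Set.mem_Icc, abs_le,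
      Set.Finite.coe_toFinset] at *
    refine ⟨by omega, ?_⟩
    show H.dist v.2 w.2 ≤ n
    omega
  refine (Set.encard_le_encard hsub).trans ?_
  rw [Set.encard_coe_eq_coe_finsetCard, Finset.card_product, Int.card_Icc]
  have h1 : (v.1 + n + 1 - (v.1 - n)).toNat = 2 * n + 1 := by omega
  rw [h1]
  have h2 := hM v.2
  rw [hfin.encard_eq_coe_toFinset_card] at h2
  have h3 : hfin.toFinset.card ≤ M := by exact_mod_cast h2
  exact_mod_cast Nat.mul_le_mul_left _ h3

/-- Balls of a locally finite connected graph are finite. -/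
theorem ball_finite {V : Type} (G : SimpleGraph V) (hc : G.Connected)
    (hl : ∀ v, (G.neighborSet v).Finite) (v : V) (n : ℕ) : {w | G.dist v w ≤ n}.Finite := by
  have key : ∀ n : ℕ, ∀ v, {w | ∃ q : G.Walk v w, q.length ≤ n}.Finite := by
    intro n
    induction n with
    | zero =>
      intro v
      apply (Set.finite_singleton v).subset
      rintro w ⟨q, hq⟩
      exact (SimpleGraph.Walk.eq_of_length_eq_zero (Nat.le_zero.1 hq)).symm
    | succ n ih =>
      intro v
      apply ((Set.finite_singleton v).union ((hl v).biUnion (fun u _ => ih u))).subset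
      rintro w ⟨q, hq⟩
      cases q with
      | nil => left; rfl
      | @cons _ u _ h q =>
        right
        rw [SimpleGraph.Walk.length_cons] at hq
        rw [Set.mem_iUnion₂]
        exact ⟨u, h, q, by omega⟩
  apply (key n v).subset
  intro w hw
  obtain ⟨q, hq⟩ := hc.exists_walk_length_eq_dist v w
  exact ⟨q, by rw [hq]; exact hw⟩

/-! ### The isoperimetric inequality -/

theorem rpow_sum_le {ι : Type} (s : Finset ι) (t : ι → ℝ) (ht : ∀ i, 0 ≤ t i) {a : ℝ} (ha : 0 < a)
    (ha1 : a ≤ 1) : (∑ i ∈ s, t i) ^ a ≤ ∑ i ∈ s, (t i) ^ a := by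
  classical
  induction s using Finset.induction_on with
  | empty => simp [Real.zero_rpow ha.ne']
  | insert i s hi ih =>
    rw [Finset.sum_insert hi, Finset.sum_insert hi]
    have h0 : 0 ≤ ∑ i ∈ s, t i := Finset.sum_nonneg (fun i _ => ht i)
    have h1 : (t i + ∑ i ∈ s, t i) ^ a ≤ (t i) ^ a + (∑ i ∈ s, t i) ^ a := by
      have := NNReal.rpow_add_le_add_rpow ⟨t i, ht i⟩ ⟨∑ i ∈ s, t i, h0⟩ ha.le ha1
      exact_mod_cast this
    linarith

theorem iso_row (H : SimpleGraph U) (p : U) {d : ℝ} (hd : 1 < d) (h : Isoperimetric H d) :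
    Isoperimetric (row H p) d := by
  classical
  obtain ⟨c, hc, h⟩ := h
  refine ⟨c, hc, fun S => ?_⟩
  set a : ℝ := (d - 1) / d with ha
  have ha0 : 0 < a := by rw [ha]; apply div_pos <;> linarith
  have ha1 : a ≤ 1 := by rw [ha, div_le_one (by linarith)]; linarith
  let X : Finset ℤ := S.image Prod.fst
  let Sx : ℤ → Finset U := fun x => (S.filter (fun v => v.1 = x)).image Prod.snd
  have hmem : ∀ x u, u ∈ Sx x ↔ (x, u) ∈ S := by
    intro x u
    simp only [Sx, Finset.mem_image, Finset.mem_filter]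
    constructor
    · rintro ⟨⟨a, b⟩, ⟨h1, h2⟩, h3⟩
      simp only at h2 h3
      rw [← h2, ← h3]; exact h1
    · intro h1
      exact ⟨(x, u), ⟨h1, rfl⟩, rfl⟩
  have hfinS : (bdry (row H p) S).Finite := S.finite_toSet.subset (fun v hv => hv.1)
  have hfinx : ∀ x, (bdry H (Sx x)).Finite := fun x =>
    (Sx x).finite_toSet.subset (fun v hv => hv.1)
  -- cardinality of `S`
  have hcardS : S.card = ∑ x ∈ X, (Sx x).card := by
    have h1 : S = X.biUnion (fun x => (Sx x).image (fun u => (x, u))) := by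
      ext ⟨x, u⟩
      simp only [Finset.mem_biUnion, Finset.mem_image, Prod.mk.injEq, X]
      constructor
      · intro h1
        exact ⟨x, ⟨(x, u), h1, rfl⟩, u, (hmem x u).2 h1, rfl, rfl⟩
      · rintro ⟨y, _, w, hw, rfl, rfl⟩
        exact (hmem _ _).1 hw
    have h2 : (X.biUnion (fun x => (Sx x).image (fun u => (x, u)))).card
        = ∑ x ∈ X, ((Sx x).image (fun u => (x, u))).card := by
      apply Finset.card_biUnion
      intro x _ y _ hxy
      rw [Function.onFun, Finset.disjoint_left]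
      intro v h3 h4
      rw [Finset.mem_image] at h3 h4
      obtain ⟨_, _, rfl⟩ := h3
      obtain ⟨_, _, h5⟩ := h4
      exact hxy (congrArg Prod.fst h5).symm
    conv_lhs => rw [h1, h2]
    apply Finset.sum_congr rfl
    intro x _
    exact Finset.card_image_of_injective _ (fun u v e => by simpa using e)
  -- the boundary
  have hcardB : ∑ x ∈ X, (bdry H (Sx x)).ncard ≤ (bdry (row H p) S).ncard := by
    rw [Set.ncard_eq_toFinset_card _ hfinS]
    have h2 : (X.biUnion (fun x => ((hfinx x).toFinset).image (fun u => (x, u)))).card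
        = ∑ x ∈ X, (((hfinx x).toFinset).image (fun u => (x, u))).card := by
      apply Finset.card_biUnion
      intro x _ y _ hxy
      rw [Function.onFun, Finset.disjoint_left]
      intro v h3 h4
      rw [Finset.mem_image] at h3 h4
      obtain ⟨_, _, rfl⟩ := h3
      obtain ⟨_, _, h5⟩ := h4
      exact hxy (congrArg Prod.fst h5).symm
    have h3 : ∑ x ∈ X, (bdry H (Sx x)).ncard
        = (X.biUnion (fun x => ((hfinx x).toFinset).image (fun u => (x, u)))).card := by
      rw [h2]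
      apply Finset.sum_congr rfl
      intro x _
      rw [Set.ncard_eq_toFinset_card _ (hfinx x)]
      exact (Finset.card_image_of_injective _ (fun u v e => by simpa using e)).symm
    rw [h3]
    apply Finset.card_le_card
    intro v hv
    rw [Finset.mem_biUnion] at hv
    obtain ⟨x, _, hv⟩ := hv
    rw [Finset.mem_image] at hv
    obtain ⟨u, hu, rfl⟩ := hv
    rw [Set.Finite.mem_toFinset] at hu ⊢
    obtain ⟨h4, w, h5, h6⟩ := hu
    exact ⟨(hmem x u).1 h4, (x, w), fun h7 => h5 ((hmem x w).2 h7), (adj_layer H p x u w).2 h6⟩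
  have hcardB' : ∑ x ∈ X, ((bdry H (Sx x)).ncard : ℝ) ≤ ((bdry (row H p) S).ncard : ℝ) := by
    exact_mod_cast hcardB
  refine le_trans ?_ hcardB'
  rw [hcardS]
  push_cast
  calc c * (∑ x ∈ X, ((Sx x).card : ℝ)) ^ a
      ≤ c * ∑ x ∈ X, ((Sx x).card : ℝ) ^ a :=
        mul_le_mul_of_nonneg_left (rpow_sum_le X _ (fun x => Nat.cast_nonneg _) ha0 ha1) hc.le
    _ = ∑ x ∈ X, c * ((Sx x).card : ℝ) ^ a := Finset.mul_sum _ _ _
    _ ≤ _ := Finset.sum_le_sum (fun x _ => h (Sx x))

/-! ### The process -/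

/-- If the point of the axis in a layer carries a seed, then the whole layer is `FPP_λ`. -/
theorem layer_lam (o : ℤ × U) (ω : Env (ℤ × U)) (x : ℤ) (hx : x ≠ o.1)
    (hs : ω.1 (x, p) = true) (n : ℕ) (v : ℤ × U) (t : ℝ) (i : Kind)
    (h : run (row H p) o ω n v = some (t, i)) : v.1 = x → i = Kind.lam := by
  refine run_induction (row H p) o ω (fun v _ i => v.1 = x → i = Kind.lam) ?_ ?_ n v t i h
  · intro h; exact absurd h.symm hx
  · intro u v t i hu hadj hv
    by_cases hseed : ω.1 v = true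
    · simp [hseed]
    · have hne : v ≠ (x, p) := by
        rintro rfl; exact hseed hs
      have hux : u.1 = x := by
        rcases hadj with ⟨h1, _⟩ | ⟨_, _, h3⟩
        · rw [h1]; exact hv
        · exact absurd (Prod.ext hv h3) hne
      simp only [hseed]
      simpa using hu hux

theorem lam_survives [Countable U] [Infinite U] (hc : H.Connected) {Δ : ℕ}
    (hΔ : ∀ u, (H.neighborSet u).encard ≤ Δ) (o : ℤ × U) {lam μ : ℝ} (hlam : 0 < lam)
    (h0 : 0 < μ) (h1 : μ < 1) :
    ∀ᵐ ω ∂(law (ℤ × U) lam μ), (∀ v, ∃ i, Occ (row H p) o ω i v) ∧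
      Survives (row H p) o ω Kind.lam := by
  have := coin_prob h0 h1
  have := isProbabilityMeasure_expMeasure hlam
  have := isProbabilityMeasure_expMeasure (r := 1) one_pos
  set δ : ℝ := 1 / (2 * ((Δ + 2 : ℕ) : ℝ) * (1 + lam)) with hδdef
  have hδ : 0 < δ := by positivity
  have hsmall : (((Δ + 2 : ℕ)) : ℝ) * ((1 + lam) * δ) ≤ 1 / 2 := by
    rw [hδdef]
    have h1 : ((Δ + 2 : ℕ) : ℝ) ≠ 0 := by positivity
    apply le_of_eq
    field_simp
  have hcc := row_connected p hc
  have hlf := loc_fin p hΔ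
  have hcl : ∀ᵐ T ∂(timeLaw (ℤ × U) lam), ∀ v, ∀ s : (ℤ × U) → Bool,
      {w | (fastGraph (row H p) ((s, T) : Env (ℤ × U)) δ).Reachable v w}.Finite := by
    rw [ae_all_iff]
    intro v
    exact fast_cluster (row H p) (nbs hΔ) (mem_nbs p hΔ) (Δ + 2) (card_nbs hΔ)
      (ball_finite _ hcc hlf) hlam hδ.le hsmall v
  have hn := times_nonneg (V := ℤ × U) hlam
  have hseed := exists_seed (V := ℤ × U) h0 h1 (fun k : ℕ => (o.1 + 1 + k, p)) (by
    intro a b h; simp only [Prod.mk.injEq] at h; omega)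
  have e1 : ∀ᵐ ω ∂(law (ℤ × U) lam μ), ∃ k : ℕ, ω.1 (o.1 + 1 + k, p) = true :=
    Measure.quasiMeasurePreserving_fst.ae hseed
  have e2 : ∀ᵐ ω ∂(law (ℤ × U) lam μ), (∀ v, ∀ s : (ℤ × U) → Bool,
      {w | (fastGraph (row H p) ((s, ω.2) : Env (ℤ × U)) δ).Reachable v w}.Finite) ∧
      ∀ e, 0 ≤ (ω.2 e).1 ∧ 0 ≤ (ω.2 e).2 :=
    Measure.quasiMeasurePreserving_snd.ae (hcl.and hn)
  filter_upwards [e1, e2] with ω hω1 hω2
  obtain ⟨k, hk⟩ := hω1
  have hocc := all_occupied (row H p) o ω hcc hlf hδ hω2.2 (fun v => hω2.1 v ω.1)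
  refine ⟨fun v => ?_, layer U (o.1 + 1 + k), layer_infinite _, layer_connected p hc _, ?_⟩
  · obtain ⟨n, ⟨t, i⟩, hn⟩ := hocc v
    exact ⟨i, n, t, hn⟩
  intro v hv
  obtain ⟨n, ⟨t, i⟩, hn⟩ := hocc v
  have hi := layer_lam p o ω (o.1 + 1 + k) (by omega) hk n v t i hn hv
  rw [hi] at hn
  exact ⟨n, t, hn⟩

theorem no_strong [Countable U] [Infinite U] (hc : H.Connected) {Δ : ℕ}
    (hΔ : ∀ u, (H.neighborSet u).encard ≤ Δ) (o : ℤ × U) : ¬ HasStrongSurvival (row H p) o := by
  rintro ⟨lam, μ, hlam, h0, h1, hpos⟩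
  have h := lam_survives p hc hΔ o hlam h0 h1
  rw [ae_iff] at h
  have h2 : law (ℤ × U) lam μ {ω | Survives (row H p) o ω Kind.one ∧
      ¬ Survives (row H p) o ω Kind.lam} = 0 :=
    le_antisymm ((measure_mono (fun ω hω hcon => hω.2 hcon.2)).trans h.le) bot_le
  rw [h2] at hpos
  exact lt_irrefl _ hpos

end Pool.Agent.Y982.RP
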